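import Pool.Agent.V11288.HS.Right
import Pool.Agent.TH270.MS.EQ3
import Pool.Agent.TH270.MS.GrowthF
import Pool.Agent.TH941.Newform

/-!
# Zero-free half planes of the `L`-series of `C` and the absolute values of the partial Euler products

Let `C : y² = x³ + a x + b` be an elliptic curve over `ℚ`, `a, b ∈ ℤ`, `4a³ + 27b² ≠ 0`, let `F` be the entire
continuation of its incomplete `L`-series, `f` its newform, and for the primes `p ∤ 2Δ` and `k ≥ 1` let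
`a(p, k) = p^k + 1 - #C(𝔽_{p^k})` (so `a(p, 1) = a_p = p - N_p`, `a(p, 0) = 2`,
`a(p, k+2) = a_p a(p, k+1) - p a(p, k)`).  For real `σ ≥ 1`, `τ` and `Y > 1` let

`log |P_{σ+iτ}(Y)| = ∑_{p^k ≤ Y, p ∤ 2Δ} Re (a(p, k) / p^{k (σ + iτ)}) / k`,

the logarithm of the absolute value of the partial Euler product of `F` at the point `σ + iτ` over all finite
fields with at most `Y` elements.  The line `σ = 1` is the critical line.

It is shown for ALL real `σ ≥ 1`, `τ`, `ρ` and all `A > 0`: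

1. The integral `∫_1^∞ (log |P_{σ+iτ}(Y)| + ρ (log log Y + γ) - log A)² dY/Y` converges IF AND ONLY IF `F(s)`
   has no zeros with `Re s > σ`, `ρ` is the order `m` of the zero of `F` at `σ + iτ` and `A` is the absolute
   value of the leading coefficient there, that is `|F(s)| / |s - (σ + iτ)|^m → A` for `s → σ + iτ`.

2. In this case there is the formula

`∫_1^∞ (log |P_{σ+iτ}(Y)| + ρ (log log Y + γ) - log A)² dY/Y =
   (1/(4π)) ∫_{-∞}^∞ (log |F(σ + i(τ + t))| + log |F(σ + i(τ - t))| - 2ρ log |t| - 2 log A)² dt/t²`.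

3. Hence the following are equivalent: `F ≠ 0` on `Re s > σ` (for `σ = 1` the Riemann hypothesis for `C`); the
   absolute values of the partial Euler products converge in mean square (after division by
   `(e^γ log Y)^{-ρ}`) at ONE point of the line `Re s = σ`; the same at ALL points of this line.

So at a point with `F(σ + iτ) ≠ 0` the absence of zeros to the right of the line says exactly that
`|P_{σ+iτ}(Y)| → |F(σ + iτ)|` in mean square, and then the total mean square error is given exactly by the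
absolute values of `F` on the line, symmetrically around the point.

Proof. The function `F(s₀ + s) conj F(s₀ + conj s)`, `s₀ = σ + iτ`, is an Euler product with real traces, whose
order at `s = 0` is `2m` and whose leading coefficient is the square of the absolute value; apply the formula
for the real point (`Pool.Agent.V11288.HS`: Hardy space of the half plane and the mean square
theorem of the library `Pool.Agent.TH270.MS`).  The growth of `F` to the left of the critical line comes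
from `f`.
-/

set_option autoImplicit false

namespace Pool.Agent.Results.MP_553913_nt.EulerProductsOnTheLine

open Pool.Agent.W263.BSD (GoodPrime pointCount IsLSeries)
open Filter Topology MeasureTheory Set CongruenceSubgroup UpperHalfPlane
open scoped MatrixGroups

/-- `a(p, k) = p^k + 1 - #C(𝔽_{p^k}) = α^k + β^k`, `α`, `β` the roots of `T² - a_p T + p`, `a_p = p - N_p`. -/
noncomputable def trace (a b : ℤ) (p : ℕ) : ℕ → ℝ
  | 0 => 2
  | 1 => (p : ℝ) - pointCount a b p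
  | k + 2 => ((p : ℝ) - pointCount a b p) * trace a b p (k + 1) - p * trace a b p k

/-- `log |P_s(Y)|`: the sum of `Re (a(p, k) / p^(k s)) / k` over all primes `p ∤ 2Δ` and `k ≥ 1` (here
`k = v.2 + 1`) with `p^k ≤ Y`. -/
noncomputable def logAbsP (a b : ℤ) (s : ℂ) (Y : ℝ) : ℝ :=
  ∑ᶠ (v : {p : ℕ // GoodPrime a b p} × ℕ) (_ : (v.1.1 : ℝ) ^ (v.2 + 1) ≤ Y),
    (((trace a b v.1.1 (v.2 + 1) : ℝ) : ℂ) / (v.1.1 : ℂ) ^ (((v.2 + 1 : ℕ) : ℂ) * s)).re / ((v.2 : ℝ) + 1)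

/-- `∫_1^∞ (log |P_{σ+iτ}(Y)| + ρ (γ + log log Y) - log A)² dY/Y ∈ [0, ∞]`. -/
noncomputable def meanSquare (a b : ℤ) (σ τ ρ A : ℝ) : ENNReal :=
  ∫⁻ Y in Ioi (1 : ℝ), ENNReal.ofReal
    ((logAbsP a b (σ + τ * Complex.I) Y + ρ * (Real.eulerMascheroniConstant + Real.log (Real.log Y)) -
      Real.log A) ^ 2 / Y)

/-- `(1/(4π)) ∫_{-∞}^∞ (log |F(σ + i(τ + t))| + log |F(σ + i(τ - t))| - 2 ρ log |t| - 2 log A)² dt/t²`, in
`[0, ∞]`. -/
noncomputable def lineIntegral (F : ℂ → ℂ) (σ τ ρ A : ℝ) : ENNReal :=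
  ENNReal.ofReal (4 * Real.pi)⁻¹ * ∫⁻ t : ℝ, ENNReal.ofReal
    ((Real.log ‖F (σ + ((τ + t : ℝ) : ℂ) * Complex.I)‖ + Real.log ‖F (σ + ((τ - t : ℝ) : ℂ) * Complex.I)‖ -
      2 * ρ * Real.log |t| - 2 * Real.log A) ^ 2 / t ^ 2)

/-- `A` is the absolute value of the leading coefficient of `F` at `σ + iτ`, and `m` the order:
`|F(s)| / |s - (σ + iτ)|^m → A` for `s → σ + iτ`. -/
def LeadingAt (F : ℂ → ℂ) (σ τ : ℝ) (m : ℕ) (A : ℝ) : Prop :=
  Tendsto (fun s : ℂ => ‖F s‖ / ‖s - (σ + τ * Complex.I)‖ ^ m) (𝓝[≠] (σ + τ * Complex.I)) (𝓝 A)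

/-- The `n`-th Fourier coefficient of `f`. -/
noncomputable def coef {N : ℕ} (f : CuspForm (Gamma0 N : Subgroup (GL (Fin 2) ℝ)) 2) (n : ℕ) : ℂ :=
  (qExpansion 1 f).coeff n

/-- `f ∈ S_2(Γ₀(N))` is the newform of the elliptic curve `E : y² = x³ + a x + b` of conductor `N`: the
Fourier coefficients `c(n)` of `f` are real with `c(1) = 1`, they satisfy the Hecke relations
`c(mn) = c(m) c(n)` for coprime `m`, `n` and `c(p^(j+2)) = c(p) c(p^(j+1)) - p c(p^j)` (without the last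
term if `p ∣ N`), `c(p) = a_p = p - N_p` (`N_p` affine points) for all primes `p ∤ 2Δ`, `|c(p)| ≤ 2 √p` for
all `p ∤ N` (Hasse) and `c(p) = 0, 1, -1` for `p ∣ N`. -/
structure IsNewformOf (a b : ℤ) (N : ℕ) (f : CuspForm (Gamma0 N : Subgroup (GL (Fin 2) ℝ)) 2) :
    Prop where
  one : coef f 1 = 1
  real : ∀ n, (coef f n).im = 0
  mul : ∀ m n : ℕ, Nat.Coprime m n → coef f (m * n) = coef f m * coef f n
  pow : ∀ p j : ℕ, p.Prime → coef f (p ^ (j + 2)) = coef f p * coef f (p ^ (j + 1)) -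
      (if p ∣ N then 0 else (p : ℂ) * coef f (p ^ j))
  points : ∀ p : ℕ, GoodPrime a b p → coef f p = (p : ℂ) - (pointCount a b p : ℂ)
  good : ∀ p : ℕ, p.Prime → ¬ p ∣ N → ‖coef f p‖ ≤ 2 * Real.sqrt p
  bad : ∀ p : ℕ, p.Prime → p ∣ N → coef f p = 0 ∨ coef f p = 1 ∨ coef f p = -1

/-- `F` has no zeros with `Re s > σ`. -/
def NoZeros (F : ℂ → ℂ) (σ : ℝ) : Prop := ∀ s : ℂ, σ < s.re → F s ≠ 0

theorem hecke {a b : ℤ} {N : ℕ} {f : CuspForm (Gamma0 N : Subgroup (GL (Fin 2) ℝ)) 2}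
    (hf : IsNewformOf a b N f) : Pool.Agent.TH941.Hecke f where
  one := hf.one
  real := hf.real
  mul := hf.mul
  pow := hf.pow
  good := hf.good
  bad := fun p hp h => by
    rcases hf.bad p hp h with h1 | h1 | h1
    · have h2 : ‖coef f p‖ ≤ 1 := by rw [h1]; simp
      exact h2
    · have h2 : ‖coef f p‖ ≤ 1 := by rw [h1]; simp
      exact h2
    · have h2 : ‖coef f p‖ ≤ 1 := by rw [h1]; simp
      exact h2

open Pool.Agent.TH942.ES
open Pool.Agent.TH270.MS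
open Pool.Agent.TH270.MS.EQ
open Pool.Agent.V11288

variable {a b : ℤ} {F : ℂ → ℂ}

theorem trace_eq₀ (v : {p : ℕ // GoodPrime a b p}) (k : ℕ) :
    ∑ i, zv (nQ a b) (alQ a b) v i ^ k = ((trace a b v.1 k / (v.1 : ℝ) ^ k : ℝ) : ℂ) := by
  have hp2 := two_le' v
  have hn0 : (0 : ℝ) < v.1 := by linarith
  have hnc : ((v.1 : ℕ) : ℂ) ≠ 0 := by exact_mod_cast hn0.ne'
  have h1 := sqrt_pos' v
  have hs2 : ((√(v.1 : ℝ) : ℝ) : ℂ) ^ 2 = v.1 := by
    rw [← Complex.ofReal_pow, Real.sq_sqrt hn0.le]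
    push_cast
    rfl
  have h1c : ((√(v.1 : ℝ) : ℝ) : ℂ) ≠ 0 := by exact_mod_cast h1.ne'
  set z₀ := zv (nQ a b) (alQ a b) v 0 with hz₀
  set z₁ := zv (nQ a b) (alQ a b) v 1 with hz₁
  have e4 : ∀ i, zv (nQ a b) (alQ a b) v i = rt (tQ a b v.1) i * (((√(v.1 : ℝ) : ℝ) : ℂ))⁻¹ := by
    intro i
    unfold zv alQ nQ
    rw [div_eq_mul_inv]
  -- sum and product of the roots
  have hrt0 : rt (tQ a b v.1) 0 = (tQ a b v.1 : ℂ) + √(1 - (tQ a b v.1) ^ 2) * Complex.I := rfl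
  have hrt1 : rt (tQ a b v.1) 1 = (tQ a b v.1 : ℂ) - √(1 - (tQ a b v.1) ^ 2) * Complex.I := rfl
  have ht := tQ_abs v
  have h3 : 0 ≤ 1 - (tQ a b v.1) ^ 2 := by
    have := sq_le_one_iff_abs_le_one (tQ a b v.1) |>.2 ht
    linarith
  have hsum : z₀ + z₁ = (((v.1 : ℝ) - pointCount a b v.1 : ℝ) : ℂ) / v.1 := by
    rw [hz₀, hz₁, e4, e4, hrt0, hrt1]
    have e5 : ((tQ a b v.1 : ℝ) : ℂ) = (((v.1 : ℝ) - pointCount a b v.1 : ℝ) : ℂ) /
        (2 * ((√(v.1 : ℝ) : ℝ) : ℂ)) := by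
      unfold tQ
      push_cast
      rfl
    have e6 : ((tQ a b v.1 : ℂ) + √(1 - (tQ a b v.1) ^ 2) * Complex.I) * (((√(v.1 : ℝ) : ℝ) : ℂ))⁻¹ +
        ((tQ a b v.1 : ℂ) - √(1 - (tQ a b v.1) ^ 2) * Complex.I) * (((√(v.1 : ℝ) : ℝ) : ℂ))⁻¹ =
        2 * (tQ a b v.1 : ℂ) * (((√(v.1 : ℝ) : ℝ) : ℂ))⁻¹ := by ring
    rw [e6, e5, ← hs2]
    field_simp
  have hprod : z₀ * z₁ = 1 / (v.1 : ℂ) := by
    rw [hz₀, hz₁, e4, e4]
    have e5 : rt (tQ a b v.1) 0 * rt (tQ a b v.1) 1 = 1 := by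
      rw [hrt0, hrt1]
      have e6 : ((√(1 - (tQ a b v.1) ^ 2) : ℝ) : ℂ) ^ 2 = 1 - (tQ a b v.1 : ℂ) ^ 2 := by
        rw [← Complex.ofReal_pow, Real.sq_sqrt h3]
        push_cast
        rfl
      have e7 : ((tQ a b v.1 : ℂ) + √(1 - (tQ a b v.1) ^ 2) * Complex.I) *
          ((tQ a b v.1 : ℂ) - √(1 - (tQ a b v.1) ^ 2) * Complex.I) =
          (tQ a b v.1 : ℂ) ^ 2 - ((√(1 - (tQ a b v.1) ^ 2) : ℝ) : ℂ) ^ 2 * Complex.I ^ 2 := by ring
      rw [e7, e6, Complex.I_sq]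
      ring
    have e6 : rt (tQ a b v.1) 0 * (((√(v.1 : ℝ) : ℝ) : ℂ))⁻¹ *
        (rt (tQ a b v.1) 1 * (((√(v.1 : ℝ) : ℝ) : ℂ))⁻¹) =
        (rt (tQ a b v.1) 0 * rt (tQ a b v.1) 1) * ((((√(v.1 : ℝ) : ℝ) : ℂ)) ^ 2)⁻¹ := by
      rw [← inv_pow]
      ring
    rw [e6, e5, hs2, one_mul, one_div]
  have key : ∀ k : ℕ, z₀ ^ k + z₁ ^ k = ((trace a b v.1 k / (v.1 : ℝ) ^ k : ℝ) : ℂ) ∧
      z₀ ^ (k + 1) + z₁ ^ (k + 1) = ((trace a b v.1 (k + 1) / (v.1 : ℝ) ^ (k + 1) : ℝ) : ℂ) := by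
    intro k
    induction k with
    | zero =>
      refine ⟨?_, ?_⟩
      · simp only [pow_zero, trace]
        norm_num
      · simp only [zero_add, pow_one, trace]
        rw [hsum]
        push_cast
        rfl
    | succ k ih =>
      refine ⟨ih.2, ?_⟩
      have e5 : z₀ ^ (k + 1 + 1) + z₁ ^ (k + 1 + 1) = (z₀ + z₁) * (z₀ ^ (k + 1) + z₁ ^ (k + 1)) -
          (z₀ * z₁) * (z₀ ^ k + z₁ ^ k) := by ring
      rw [e5, ih.1, ih.2, hsum, hprod]
      have e6 : trace a b v.1 (k + 1 + 1) = ((v.1 : ℝ) - pointCount a b v.1) *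
          trace a b v.1 (k + 1) - v.1 * trace a b v.1 k := rfl
      rw [e6]
      push_cast
      field_simp
      ring
  rw [Fin.sum_univ_two]
  exact (key k).1

theorem trace_eq (v : {p : ℕ // GoodPrime a b p}) (j : ℕ) (s : ℂ) :
    (∑ i, zv (nQ a b) (alQ a b) v i ^ j) * xv (nQ a b) v ((j : ℂ) * s) =
    ((trace a b v.1 j : ℝ) : ℂ) / ((nQ a b v : ℕ) : ℂ) ^ ((j : ℂ) * (((1 : ℝ) : ℂ) + s)) := by
  have hn : (0 : ℝ) < (nQ a b v : ℕ) := by
    have := two_le' v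
    unfold nQ
    linarith
  have hnc : ((nQ a b v : ℕ) : ℂ) ≠ 0 := by exact_mod_cast hn.ne'
  rw [trace_eq₀]
  have hlog : Complex.log ((nQ a b v : ℕ) : ℂ) = (Real.log ((nQ a b v : ℕ) : ℝ) : ℂ) := by
    rw [Complex.ofReal_log hn.le]
    push_cast
    rfl
  have h1 : xv (nQ a b) v ((j : ℂ) * s) = ((((nQ a b v : ℕ) : ℂ)) ^ ((j : ℂ) * s))⁻¹ := by
    unfold xv
    rw [Complex.cpow_def_of_ne_zero hnc, hlog, ← Complex.exp_neg]
    congr 1
    ring
  have h2 : ((nQ a b v : ℕ) : ℂ) ^ ((j : ℂ) * (((1 : ℝ) : ℂ) + s)) =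
      ((nQ a b v : ℕ) : ℂ) ^ j * ((nQ a b v : ℕ) : ℂ) ^ ((j : ℂ) * s) := by
    rw [Complex.ofReal_one, mul_add, mul_one, Complex.cpow_add _ _ hnc, Complex.cpow_natCast]
  rw [h1, h2]
  have h3 : ((nQ a b v : ℕ) : ℂ) = ((v.1 : ℕ) : ℂ) := rfl
  rw [h3]
  push_cast
  rw [div_mul_eq_mul_div, ← div_div, mul_div_right_comm, div_eq_mul_inv (_ / _) (_ ^ (_ : ℂ)), div_mul_eq_mul_div]

theorem lead_iff (F : ℂ → ℂ) (σ τ : ℝ) (m : ℕ) (A : ℝ) : LeadingAt F σ τ m A ↔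
    Tendsto (fun s : ℂ => ‖F (1 + (s + τ * Complex.I + ((σ - 1 : ℝ) : ℂ)))‖ / ‖s‖ ^ m) (𝓝[≠] 0)
      (𝓝 A) := by
  unfold LeadingAt
  have h1 : map (fun s : ℂ => s + (σ + τ * Complex.I)) (𝓝[≠] 0) = 𝓝[≠] (σ + τ * Complex.I) := by
    have : map (fun s : ℂ => s + (σ + τ * Complex.I)) (𝓝[≠] 0) =
        𝓝[≠] (0 + (σ + τ * Complex.I)) := map_add_right_nhdsNE
    rwa [zero_add] at this
  rw [← h1, tendsto_map'_iff]
  refine tendsto_congr fun s => ?_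
  simp only [Function.comp_apply, add_sub_cancel_right]
  congr 3
  push_cast
  ring

/-- **Zero-free half planes of `F` and the absolute values of the partial Euler products.** -/
theorem result (a b : ℤ) (hΔ : 4 * a ^ 3 + 27 * b ^ 2 ≠ 0) (F : ℂ → ℂ) (hF : IsLSeries a b F)
    (N : ℕ) [NeZero N] (f : CuspForm (Gamma0 N : Subgroup (GL (Fin 2) ℝ)) 2)
    (hf : IsNewformOf a b N f) (σ : ℝ) (hσ : 1 ≤ σ) :
    (∀ τ ρ A : ℝ, 0 < A →
      ((NoZeros F σ ∧ ∃ m : ℕ, ρ = m ∧ LeadingAt F σ τ m A) ↔ meanSquare a b σ τ ρ A < ⊤) ∧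
      (meanSquare a b σ τ ρ A < ⊤ → meanSquare a b σ τ ρ A = lineIntegral F σ τ ρ A)) ∧
    List.TFAE [
      NoZeros F σ,
      ∀ τ : ℝ, ∃ ρ A : ℝ, 0 < A ∧ meanSquare a b σ τ ρ A < ⊤,
      ∃ τ ρ A : ℝ, 0 < A ∧ meanSquare a b σ τ ρ A < ⊤] := by
  classical
  obtain ⟨C₀, κ, hg⟩ := growth_F hΔ hF (hecke hf) fun p hp => hf.points p hp
  have H := curve_mc hF (by norm_num : (0 : ℝ) < 1 / 8) hg
  have P : HS.Pc (nQ a b) (alQ a b) (fun s => F (1 + s)) κ (1 / 8) (|C₀| * 2 ^ κ) :=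
    ⟨H.E.cnt, H.E.two_le, H.E.sum, H.E.log_sum, H.E.le, H.hη, H.hG, H.hgrow, H.hL⟩
  obtain ⟨M, hM, hcrit, hline, hlead⟩ := P.crit (T := fun v j => ((trace a b v.1 j : ℝ) : ℂ)) (c := 1)
    (fun v j s => trace_eq v j s) (δ := σ - 1) (by linarith)
  have hms : ∀ τ ρ A : ℝ, meanSquare a b σ τ ρ A = M τ ρ (Real.log A) := by
    intro τ ρ A
    rw [hM]
    unfold meanSquare logAbsP
    have e1 : (((1 : ℝ) : ℂ) + (((σ - 1 : ℝ) : ℂ) + τ * Complex.I)) = (σ : ℂ) + τ * Complex.I := by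
      push_cast
      ring
    rw [e1]
    rfl
  have hz : NoZeros F σ ↔ ∀ s : ℂ, 0 < s.re → F (1 + (s + ((σ - 1 : ℝ) : ℂ))) ≠ 0 := by
    constructor
    · intro h s hs
      refine h _ ?_
      simp only [Complex.add_re, Complex.one_re, Complex.ofReal_re]
      linarith
    · intro h s hs
      have h1 := h (s - σ) (by
        rw [Complex.sub_re, Complex.ofReal_re]
        linarith)
      have e1 : (1 : ℂ) + (s - σ + ((σ - 1 : ℝ) : ℂ)) = s := by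
        push_cast
        ring
      rwa [e1] at h1
  have hiff : ∀ τ ρ A : ℝ, 0 < A →
      ((NoZeros F σ ∧ ∃ m : ℕ, ρ = m ∧ LeadingAt F σ τ m A) ↔ meanSquare a b σ τ ρ A < ⊤) := by
    intro τ ρ A hA
    rw [hms, ← hcrit τ ρ hA, hz]
    simp only [lead_iff]
  refine ⟨fun τ ρ A hA => ⟨hiff τ ρ A hA, fun h => ?_⟩, ?_⟩
  · rw [hms] at h ⊢
    rw [hline τ ρ (Real.log A) h]
    unfold lineIntegral
    have e1 : ∀ x : ℝ, (1 : ℂ) + ((x : ℂ) * Complex.I + ((σ - 1 : ℝ) : ℂ)) = σ + (x : ℂ) * Complex.I := by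
      intro x
      push_cast
      ring
    simp only [e1]
  · tfae_have 1 → 2 := by
      intro h τ
      obtain ⟨m, A, hA, hl⟩ := hlead τ
      refine ⟨m, A, hA, ?_⟩
      rw [← hiff τ m A hA]
      exact ⟨h, m, rfl, (lead_iff _ σ τ m A).2 hl⟩
    tfae_have 2 → 3 := by
      intro h
      exact ⟨0, h 0⟩
    tfae_have 3 → 1 := by
      rintro ⟨τ, ρ, A, hA, h⟩
      exact ((hiff τ ρ A hA).2 h).1
    tfae_finish

end Pool.Agent.Results.MP_553913_nt.EulerProductsOnTheLine
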