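import Pool.Agent.Results.MP_553913_nt.DerivativesDensity
import Pool.Agent.V11271.GR.Newf

/-!
# The L-function of an elliptic curve grows away from the critical line at almost all heights

`E : y² = x³ + a x + b` is an elliptic curve over `ℚ` of conductor `N` and `Λ` its completed L-function (definitions
`IsFormOf`, `IsCompleted` of the starting file `Pool.Agent.Results.MP_553913_nt.DerivativesDensity`).  The Riemann
hypothesis for `E` holds if and only if for every real `t` the function `x ↦ |Λ(1 + x + i t)|` is strictly increasing on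
`x ≥ 0`; this criterion is part of the theorem.  We prove unconditionally, for every `E` and EVERY `c < 1`: for all `r ≥ 0`
and `T ≥ 2` the heights `t` in `[0, T]` at which it is not strictly increasing on `x ≥ r / log T` form a set of measure at
most `C e^(-c r) T`.

Proof: a zero `1 + b + i γ` of `Λ` disturbs the growth only for `|t - γ| < |b|` (Hadamard product), and the zeros with
`|b| > r / log T` are few by the density theorem of the starting modules `Pool.Agent.Y24.GL`, `Pool.Agent.Y771.NF`,
`Pool.Agent.Y671`.  For the Ramanujan function this is the theorem HorizontalGrowth of the starting files; here the zeros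
on the real axis must be allowed (the central zero of any order, and the real zeros off the centre, which cannot be
excluded).
-/

set_option autoImplicit false

open Complex UpperHalfPlane MatrixGroups CongruenceSubgroup

namespace Pool.Agent.Results.MP_553913_nt.HorizontalGrowth

open Pool.Agent.Results.MP_553913_nt.DerivativesDensity (coef IsFormOf IsCompleted)

/-- **Main theorem.** Let `E : y² = x³ + a x + b` be an elliptic curve over `ℚ`, and `Λ` its completed
L-function. The Riemann hypothesis for `E` holds if and only if `x ↦ |Λ(1 + x + i t)|` is strictly increasing on `x ≥ 0`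
for all real `t`. For every `c < 1` there is `C` such that for all `r ≥ 0` and `T ≥ 2` the real numbers `t` in `[0, T]`
for which `x ↦ |Λ(1 + x + i t)|` is not strictly increasing on the half-line `x ≥ r / log T` form a set of Lebesgue
(outer) measure at most `C e^(-c r) T`. -/
theorem result (a b : ℤ) (N : ℕ) [NeZero N] (f : CuspForm (Gamma0 N : Subgroup (GL (Fin 2) ℝ)) 2) (w : ℝ)
    (_ : 4 * a ^ 3 + 27 * b ^ 2 ≠ 0) (hf : IsFormOf a b N f w) :
    ∃ Λ : ℂ → ℂ, IsCompleted f Λ ∧ (∀ Λ', IsCompleted f Λ' → Λ' = Λ) ∧
      (∀ s : ℂ, Λ (2 - s) = (w : ℂ) * Λ s) ∧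
      ((∀ s : ℂ, Λ s = 0 → s.re = 1) ↔
        ∀ t : ℝ, StrictMonoOn (fun x : ℝ => ‖Λ (1 + x + t * Complex.I)‖) (Set.Ici 0)) ∧
      ∀ c : ℝ, c < 1 → ∃ C : ℝ, 0 < C ∧ ∀ r T : ℝ, 0 ≤ r → 2 ≤ T →
        MeasureTheory.volume {t : ℝ | 0 ≤ t ∧ t ≤ T ∧
          ¬ StrictMonoOn (fun x : ℝ => ‖Λ (1 + x + t * Complex.I)‖) (Set.Ici (r / Real.log T))} ≤
        ENNReal.ofReal (C * Real.exp (-(c * r)) * T) := by
  have hf' : Pool.Agent.W169.HF.IsForm N f w :=
    { one := hf.one
      real := hf.real
      mul := hf.mul
      pow := hf.pow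
      sign := hf.sign
      fricke := hf.fricke
      good := hf.good
      bad := fun p hp hpN => by
        have h1 : (1 : ℝ) ≤ Real.sqrt p := by
          rw [Real.one_le_sqrt]
          exact_mod_cast hp.one_le
        have h2 : ‖coef f p‖ ≤ 1 := by
          rcases hf.bad p hp hpN with h | h | h <;> simp [h]
        exact h2.trans h1 }
  have hnf := Pool.Agent.Y671.GL.newf_of_form hf'
  obtain ⟨Λ, hΛdef⟩ : ∃ Λ : ℂ → ℂ, Λ = Pool.Agent.Y771.NF.Lam (k := 2) f := ⟨_, rfl⟩
  have hΛ : IsCompleted f Λ := by
    refine ⟨?_, fun s hs => ?_⟩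
    · rw [hΛdef]
      exact Pool.Agent.Y771.NF.Lam_diff (k := 2) (by norm_num) hnf
    · rw [hΛdef]
      exact Pool.Agent.Y771.NF.Lam_ser (k := 2) (by norm_num) hnf s (by norm_num; exact hs)
  have hX : ∀ x t : ℝ, Pool.Agent.V11271.GR.X1 (k := 2) f (x + t * Complex.I) = Λ (1 + x + t * Complex.I) := by
    intro x t
    unfold Pool.Agent.V11271.GR.X1
    rw [hΛdef]
    congr 1
    push_cast
    ring
  have hX0 : ∀ z : ℂ, Pool.Agent.V11271.GR.X1 (k := 2) f z = Λ (1 + z) := by
    intro z
    unfold Pool.Agent.V11271.GR.X1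
    rw [hΛdef]
    congr 1
    push_cast
    ring
  refine ⟨Λ, hΛ, fun Λ' h' => Pool.Agent.W169.HF.completed_unique h' hΛ, ?_, ?_, ?_⟩
  · intro s
    have h1 := Pool.Agent.V11271.GR.X1_sym (k := 2) (by norm_num) hnf (s - 1)
    rw [hX0, hX0] at h1
    have e1 : (1 : ℂ) + -(s - 1) = 2 - s := by ring
    have e2 : (1 : ℂ) + (s - 1) = s := by ring
    rw [e1, e2] at h1
    exact h1
  · have h1 := Pool.Agent.V11271.GR.newf_criterion (k := 2) (by norm_num) hnf
    simp only [hX] at h1
    rw [← h1]
    constructor
    · intro h z hz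
      rw [hX0] at hz
      have := h _ hz
      simp at this
      exact this
    · intro h s hs
      have h2 := h (s - 1) (by
        rw [hX0]
        have e2 : (1 : ℂ) + (s - 1) = s := by ring
        rw [e2]
        exact hs)
      simp at h2
      linarith
  · intro c hc
    obtain ⟨C, hC, h⟩ := Pool.Agent.V11271.GR.newf_growth (k := 2) (by norm_num) hnf hc
    refine ⟨C, hC, fun r T hr hT => ?_⟩
    have h1 := h r T hr hT
    unfold Pool.Agent.Y22.RX.Bad at h1
    simp only [hX] at h1
    exact h1

end Pool.Agent.Results.MP_553913_nt.HorizontalGrowth
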