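import Pool.Agent.V11271.LU.Ell1

set_option autoImplicit false

/-!
# MP_553913_nt: Li coefficients with a far centre, uniformly for all elliptic curves over `ℚ`

`E : y² = x³ + a x + b` is an elliptic curve over `ℚ` of conductor `N` and `Λ` its completed L-function
(definitions as in the starting file NewmanConductor). For a real number `A` the Li coefficients of `Λ`
with centre `1 + A` are

`liCoeff Λ A n = ∑ Re (1 - ((ρ - 1 - A) / (ρ - 1 + A)) ^ n)`,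

the sum over the nontrivial zeros with multiplicity. The Riemann hypothesis for `E` says that they are all
nonnegative. We let the centre go to infinity and ask for the range `1 ≤ n ≤ κ A log A` in which they are
positive. For every `κ < 1` there is ONE `A0`, the same for all elliptic curves, such that for all `A ≥ A0` the
coefficients in this range are positive, of size at least `c n A (1 + log N)`, unconditionally. If the zeros of
`L(E, s)` have real part at most `1 + h`, this holds for `κ < 1/(2h)` (again with one `A0` for all `E`);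
conversely positivity for `E` in this range (for large `A`) implies that the zeros have real part at most
`1 + 1/κ`. So the Riemann hypothesis for `E` is equivalent to positivity in all such ranges, and the Riemann
hypothesis for all elliptic curves is equivalent to uniform positivity in all such ranges. Only the
coefficients with a far centre and with `n / (A log A)` bounded enter; for a fixed centre finitely
many of them.
-/

open Complex UpperHalfPlane MatrixGroups CongruenceSubgroup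

namespace Pool.Agent.Results.MP_553913_nt.LiHorizonElliptic

/-- The coefficient `a_p` of `E : y² = x³ + a x + b` at a prime `p ∤ 2 (4a³ + 27b²)`: `p` minus the
number of pairs `(x, y)` modulo `p` with `y² ≡ x³ + a x + b (mod p)`. -/
noncomputable def ap (a b : ℤ) (p : ℕ) : ℤ :=
  (p : ℤ) - (((Finset.range p ×ˢ Finset.range p).filter
    (fun xy : ℕ × ℕ => (p : ℤ) ∣ (xy.2 : ℤ) ^ 2 -
      ((xy.1 : ℤ) ^ 3 + a * (xy.1 : ℤ) + b))).card : ℤ)

/-- The `n`-th Fourier coefficient of `f`. -/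
noncomputable def coef {N : ℕ} (f : CuspForm (Gamma0 N : Subgroup (GL (Fin 2) ℝ)) 2) (n : ℕ) : ℂ :=
  (qExpansion 1 f).coeff n

/-- `f ∈ S_2(Γ₀(N))` is the newform of the elliptic curve `E : y² = x³ + a x + b` of conductor `N` and
root number `w`: the Fourier coefficients `c(n)` of `f` are real with `c(1) = 1`, they satisfy the
Hecke relations `c(mn) = c(m) c(n)` for coprime `m`, `n` and `c(p^(j+2)) = c(p) c(p^(j+1)) - p c(p^j)`
(without the last term if `p ∣ N`), `f(-1/(Nτ)) = -w N τ² f(τ)`, `c(p) = a_p(E)` for all primes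
`p ∤ 2 (4a³ + 27b²)`, `|c(p)| ≤ 2 √p` for all `p ∤ N` (Hasse) and `c(p) = 0, 1, -1` for `p ∣ N`. -/
structure IsFormOf (a b : ℤ) (N : ℕ) (f : CuspForm (Gamma0 N : Subgroup (GL (Fin 2) ℝ)) 2) (w : ℝ) :
    Prop where
  one : coef f 1 = 1
  real : ∀ n, (coef f n).im = 0
  mul : ∀ m n : ℕ, Nat.Coprime m n → coef f (m * n) = coef f m * coef f n
  pow : ∀ p j : ℕ, p.Prime → coef f (p ^ (j + 2)) = coef f p * coef f (p ^ (j + 1)) -
      (if p ∣ N then 0 else (p : ℂ) * coef f (p ^ j))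
  sign : w = 1 ∨ w = -1
  fricke : ∀ τ τ' : ℍ, (τ' : ℂ) * ((N : ℂ) * (τ : ℂ)) = -1 →
    f τ' = -(w : ℂ) * (N : ℂ) * (τ : ℂ) ^ 2 * f τ
  points : ∀ p : ℕ, p.Prime → ¬ (p : ℤ) ∣ 2 * (4 * a ^ 3 + 27 * b ^ 2) → coef f p = (ap a b p : ℂ)
  good : ∀ p : ℕ, p.Prime → ¬ p ∣ N → ‖coef f p‖ ≤ 2 * Real.sqrt p
  bad : ∀ p : ℕ, p.Prime → p ∣ N → coef f p = 0 ∨ coef f p = 1 ∨ coef f p = -1

/-- `Λ` is the completed L-function of `f`: it is entire and
`Λ(s) = N^(s/2) (2π)^(-s) Γ(s) ∑ c(n) n^(-s)` for `Re s > 2`. -/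
def IsCompleted {N : ℕ} (f : CuspForm (Gamma0 N : Subgroup (GL (Fin 2) ℝ)) 2) (Λ : ℂ → ℂ) : Prop :=
  Differentiable ℂ Λ ∧ ∀ s : ℂ, 2 < s.re →
    Λ s = ((Real.sqrt N / (2 * Real.pi) : ℝ) : ℂ) ^ s * Complex.Gamma s *
      ∑' n : ℕ, coef f (n + 1) * ((n + 1 : ℕ) : ℂ) ^ (-s)

/-- An elliptic curve `E : y² = x³ + a x + b` over `ℚ` of conductor `N` with its newform `f` and root number `w`. -/
structure Curve where
  /-- the coefficients of `E` -/
  a : ℤ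
  /-- the coefficients of `E` -/
  b : ℤ
  disc : 4 * a ^ 3 + 27 * b ^ 2 ≠ 0
  /-- the conductor of `E` -/
  N : ℕ
  N_pos : N ≠ 0
  /-- the newform of `E` -/
  f : CuspForm (Gamma0 N : Subgroup (GL (Fin 2) ℝ)) 2
  /-- the root number of `E` -/
  w : ℝ
  form : IsFormOf a b N f w

/-- The Li coefficients of `Λ` with centre `1 + A`. The sum is over all complex numbers `s`, weighted with
the multiplicity of `s` as a zero of `Λ`, so only the zeros contribute; it converges absolutely for `A ≥ 2`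
(`summable` below). -/
noncomputable def liCoeff (Λ : ℂ → ℂ) (A : ℝ) (n : ℕ) : ℝ :=
  ∑' s : ℂ, (analyticOrderNatAt Λ s : ℝ) * (1 - ((s - 1 - A) / (s - 1 + A)) ^ n).re

/-- For all large `A` the first `κ A log A` coefficients are positive. -/
def PositiveUpTo (Λ : ℂ → ℂ) (κ : ℝ) : Prop :=
  ∃ A0 : ℝ, ∀ A : ℝ, A0 ≤ A → ∀ n : ℕ, 1 ≤ n → n ≤ κ * A * Real.log A → 0 < liCoeff Λ A n

/-- all zeros of `Λ` are on the line `Re s = 1` -/
def OnLine (Λ : ℂ → ℂ) : Prop := ∀ s : ℂ, Λ s = 0 → s.re = 1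

open Pool.Agent.V11271.LU

lemma isForm (E : Curve) : Pool.Agent.W169.HF.IsForm E.N E.f E.w :=
  { one := E.form.one
    real := E.form.real
    mul := E.form.mul
    pow := E.form.pow
    sign := E.form.sign
    fricke := E.form.fricke
    good := E.form.good
    bad := fun p hp hpN => by
      have h1 : (1 : ℝ) ≤ Real.sqrt p := by
        rw [Real.one_le_sqrt]
        exact_mod_cast hp.one_le
      have h2 : ‖coef E.f p‖ ≤ 1 := by
        rcases E.form.bad p hp hpN with h | h | h <;> simp [h]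
      exact h2.trans h1 }

theorem summable (E : Curve) {Λ : ℂ → ℂ} (hΛ : IsCompleted E.f Λ) {A : ℝ} (hA : 2 ≤ A) (n : ℕ) :
    Summable fun s : ℂ => (analyticOrderNatAt Λ s : ℝ) * (1 - ((s - 1 - A) / (s - 1 + A)) ^ n).re := by
  have : NeZero E.N := ⟨E.N_pos⟩
  exact eone_summable (isForm E) hΛ hA n

theorem strip (E : Curve) {Λ : ℂ → ℂ} (hΛ : IsCompleted E.f Λ) {s : ℂ} (hs : Λ s = 0) : |s.re - 1| ≤ 1 / 2 := by
  have : NeZero E.N := ⟨E.N_pos⟩
  exact eone_strip (isForm E) hΛ hs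

theorem sufficient {h κ : ℝ} (hh : 0 < h) (hκ : 0 < κ) (hhκ : 2 * h * κ < 1) : ∃ c A0 : ℝ, 0 < c ∧ 2 ≤ A0 ∧
    ∀ (E : Curve) (Λ : ℂ → ℂ), IsCompleted E.f Λ → (∀ s : ℂ, Λ s = 0 → s.re ≤ 1 + h) → ∀ A : ℝ, A0 ≤ A → ∀ n : ℕ, 1 ≤ n →
      n ≤ κ * A * Real.log A → c * (1 + Real.log E.N) * (n * A) ≤ liCoeff Λ A n := by
  obtain ⟨c, A0, hc, hA0, H⟩ := eone_pos hh hκ hhκ
  refine ⟨c, A0, hc, hA0, fun E Λ hΛ hz A hA n hn hnA => ?_⟩
  have : NeZero E.N := ⟨E.N_pos⟩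
  exact H E.N E.f E.w (isForm E) Λ hΛ hz A hA n hn hnA

theorem necessary (E : Curve) {Λ : ℂ → ℂ} (hΛ : IsCompleted E.f Λ) {κ : ℝ} (hκ : 0 < κ) (h : PositiveUpTo Λ κ)
    {s : ℂ} (hs : Λ s = 0) : |s.re - 1| ≤ 1 / κ := by
  have : NeZero E.N := ⟨E.N_pos⟩
  obtain ⟨A0, hA0⟩ := h
  exact eone_neg (isForm E) hΛ hκ ⟨A0, fun A hA n hn hnA => (hA0 A hA n hn hnA).le⟩ hs

theorem exists_completed (E : Curve) : ∃ Λ : ℂ → ℂ, IsCompleted E.f Λ := by
  have : NeZero E.N := ⟨E.N_pos⟩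
  exact eone_exists (isForm E)

theorem unique (E : Curve) {Λ Λ' : ℂ → ℂ} (h : IsCompleted E.f Λ) (h' : IsCompleted E.f Λ') : Λ' = Λ :=
  Pool.Agent.W169.HF.completed_unique h' h

lemma pos_of {c : ℝ} (hc : 0 < c) (E : Curve) {A : ℝ} (hA : 2 ≤ A) {n : ℕ} (hn : 1 ≤ n) {x : ℝ}
    (h : c * (1 + Real.log E.N) * (n * A) ≤ x) : 0 < x := by
  refine lt_of_lt_of_le ?_ h
  have h1 : (0 : ℝ) < n := by exact_mod_cast hn
  have h2 : 0 ≤ Real.log E.N := Real.log_nonneg (by exact_mod_cast Nat.one_le_iff_ne_zero.2 E.N_pos)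
  have h3 : 0 < A := by linarith
  positivity

lemma line_of_all (E : Curve) {Λ : ℂ → ℂ} (hΛ : IsCompleted E.f Λ) (h : ∀ κ : ℝ, 0 < κ → PositiveUpTo Λ κ) :
    OnLine Λ := by
  intro s hs
  have h1 : |s.re - 1| ≤ 0 := by
    apply le_of_forall_pos_le_add
    intro ε hε
    have := necessary E hΛ (κ := 1 / ε) (by positivity) (h _ (by positivity)) hs
    rwa [one_div_one_div, ← zero_add ε] at this
  have h3 := abs_nonpos_iff.mp h1
  linarith

lemma all_of_line {κ : ℝ} (hκ : 0 < κ) : ∃ A0 : ℝ, ∀ (E : Curve) (Λ : ℂ → ℂ), IsCompleted E.f Λ → OnLine Λ →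
    ∀ A : ℝ, A0 ≤ A → ∀ n : ℕ, 1 ≤ n → n ≤ κ * A * Real.log A → 0 < liCoeff Λ A n := by
  obtain ⟨c, A0, hc, hA0, H⟩ := sufficient (h := 1 / (4 * κ)) (κ := κ) (by positivity) hκ (by
    have : 2 * (1 / (4 * κ)) * κ = 1 / 2 := by field_simp; norm_num
    rw [this]
    norm_num)
  refine ⟨A0, fun E Λ hΛ hL A hA n hn hnA => pos_of hc E (hA0.trans hA) hn (H E Λ hΛ (fun s hs => ?_) A hA n hn hnA)⟩
  rw [hL s hs]
  have : 0 < 1 / (4 * κ) := by positivity
  linarith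

/-- **Main theorem.** -/
theorem result :
    -- the completed L-functions exist and are unique
    (∀ E : Curve, ∃! Λ : ℂ → ℂ, IsCompleted E.f Λ) ∧
    -- zeros up to `1 + h`: uniform positivity for `κ < 1/(2h)`
    (∀ h κ : ℝ, 0 < h → 0 < κ → 2 * h * κ < 1 → ∃ c A0 : ℝ, 0 < c ∧
      ∀ (E : Curve) (Λ : ℂ → ℂ), IsCompleted E.f Λ → (∀ s : ℂ, Λ s = 0 → s.re ≤ 1 + h) → ∀ A : ℝ, A0 ≤ A →
        ∀ n : ℕ, 1 ≤ n → n ≤ κ * A * Real.log A → c * (1 + Real.log E.N) * (n * A) ≤ liCoeff Λ A n) ∧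
    -- unconditional uniform positivity for `κ < 1`
    (∀ κ : ℝ, 0 < κ → κ < 1 → ∃ c A0 : ℝ, 0 < c ∧
      ∀ (E : Curve) (Λ : ℂ → ℂ), IsCompleted E.f Λ → ∀ A : ℝ, A0 ≤ A → ∀ n : ℕ, 1 ≤ n →
        n ≤ κ * A * Real.log A → c * (1 + Real.log E.N) * (n * A) ≤ liCoeff Λ A n) ∧
    -- zero-free regions from positivity
    (∀ (E : Curve) (Λ : ℂ → ℂ), IsCompleted E.f Λ → ∀ κ : ℝ, 0 < κ → PositiveUpTo Λ κ →
      ∀ s : ℂ, Λ s = 0 → |s.re - 1| ≤ 1 / κ) ∧
    -- the Riemann hypothesis for one curve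
    (∀ (E : Curve) (Λ : ℂ → ℂ), IsCompleted E.f Λ → (OnLine Λ ↔ ∀ κ : ℝ, 0 < κ → PositiveUpTo Λ κ)) ∧
    -- the Riemann hypothesis for all curves
    ((∀ (E : Curve) (Λ : ℂ → ℂ), IsCompleted E.f Λ → OnLine Λ) ↔ ∀ κ : ℝ, 0 < κ → ∃ A0 : ℝ,
      ∀ (E : Curve) (Λ : ℂ → ℂ), IsCompleted E.f Λ → ∀ A : ℝ, A0 ≤ A → ∀ n : ℕ, 1 ≤ n →
        n ≤ κ * A * Real.log A → 0 < liCoeff Λ A n) := by
  refine ⟨fun E => ?_, fun h κ hh hκ hhκ => ?_, fun κ hκ hκ1 => ?_,
    fun E Λ hΛ κ hκ h s hs => necessary E hΛ hκ h hs, fun E Λ hΛ => ⟨fun h κ hκ => ?_, line_of_all E hΛ⟩,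
    ⟨fun h κ hκ => ?_, fun h E Λ hΛ => line_of_all E hΛ fun κ hκ => ?_⟩⟩
  · obtain ⟨Λ, hΛ⟩ := exists_completed E
    exact ⟨Λ, hΛ, fun Λ' h' => unique E hΛ h'⟩
  · obtain ⟨c, A0, hc, _, H⟩ := sufficient hh hκ hhκ
    exact ⟨c, A0, hc, H⟩
  · obtain ⟨c, A0, hc, _, H⟩ := sufficient (h := 1 / 2) (κ := κ) (by norm_num) hκ (by linarith)
    refine ⟨c, A0, hc, fun E Λ hΛ A hA n hn hnA => H E Λ hΛ (fun s hs => ?_) A hA n hn hnA⟩
    have := (abs_le.mp (strip E hΛ hs)).2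
    linarith
  · obtain ⟨A0, H⟩ := all_of_line hκ
    exact ⟨A0, fun A hA n hn hnA => H E Λ hΛ h A hA n hn hnA⟩
  · obtain ⟨A0, H⟩ := all_of_line hκ
    exact ⟨A0, fun E Λ hΛ A hA n hn hnA => H E Λ hΛ (h E Λ hΛ) A hA n hn hnA⟩
  · obtain ⟨A0, H⟩ := h κ hκ
    exact ⟨A0, fun A hA n hn hnA => H E Λ hΛ A hA n hn hnA⟩

end Pool.Agent.Results.MP_553913_nt.LiHorizonElliptic
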